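import Mathlib

set_option autoImplicit false

/-!
# Configurations of the non-Fano matroid over an alphabet of even size do not exist

The elements `0, 1, 2` are a basis, `3, 4, 5` are on the lines `01`, `12`, `02`, and `6` is the
intersection of the lines `04`, `15`, `23`. The set `S` is the support of a random vector.
-/

namespace Pool.Agent.H75MX.Comb

/-- The six lines of the non-Fano matroid. -/
def isLine (i j k : Fin 7) : Bool :=
  decide (({i, j, k} : Finset (Fin 7)) ∈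
    ({{0, 1, 3}, {1, 2, 4}, {0, 2, 5}, {0, 4, 6}, {1, 5, 6}, {2, 3, 6}} : Finset (Finset (Fin 7))))

theorem core (S : Set (Fin 7 → ℕ)) (o : Fin 7 → ℕ) (ho : o ∈ S)
    (hE : ∀ i j k : Fin 7, i ≠ j → i ≠ k → j ≠ k → isLine i j k = false → ∀ a ∈ S, ∀ b ∈ S,
      ∀ c ∈ S, ∃ ω ∈ S, ω i = a i ∧ ω j = b j ∧ ω k = c k)
    (hU : ∀ i j k : Fin 7, i ≠ j → i ≠ k → j ≠ k → isLine i j k = false → ∀ a ∈ S, ∀ b ∈ S,
      a i = b i → a j = b j → a k = b k → a = b)
    (hL : ∀ i j k : Fin 7, isLine i j k = true → ∀ a ∈ S, ∀ b ∈ S,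
      a i = b i → a j = b j → a k = b k)
    (s : Finset ℕ) (hs : ∀ n, n ∈ s ↔ ∃ ω ∈ S, ω 6 = n) (hcard : Even s.card) : False := by
  classical
  -- labels
  let G := {n : ℕ // n ∈ s}
  have hGe : ∀ g : G, ∃ ω ∈ S, ω 6 = g.1 := fun g => (hs g.1).1 g.2
  have mk : ∀ ω ∈ S, ω 6 ∈ s := fun ω hω => (hs _).2 ⟨ω, hω, rfl⟩
  -- special configurations
  have hA : ∀ g : G, ∃ ω, ω ∈ S ∧ ω 1 = o 1 ∧ ω 2 = o 2 ∧ ω 6 = g.1 := by
    intro g
    obtain ⟨x, hx, hx6⟩ := hGe g
    obtain ⟨ω, h1, h2, h3, h4⟩ := hE 1 2 6 (by decide) (by decide) (by decide) (by decide) o ho o ho x hx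
    exact ⟨ω, h1, h2, h3, h4.trans hx6⟩
  have hB : ∀ g : G, ∃ ω, ω ∈ S ∧ ω 0 = o 0 ∧ ω 2 = o 2 ∧ ω 6 = g.1 := by
    intro g
    obtain ⟨x, hx, hx6⟩ := hGe g
    obtain ⟨ω, h1, h2, h3, h4⟩ := hE 0 2 6 (by decide) (by decide) (by decide) (by decide) o ho o ho x hx
    exact ⟨ω, h1, h2, h3, h4.trans hx6⟩
  have hC : ∀ g : G, ∃ ω, ω ∈ S ∧ ω 0 = o 0 ∧ ω 1 = o 1 ∧ ω 6 = g.1 := by
    intro g
    obtain ⟨x, hx, hx6⟩ := hGe g
    obtain ⟨ω, h1, h2, h3, h4⟩ := hE 0 1 6 (by decide) (by decide) (by decide) (by decide) o ho o ho x hx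
    exact ⟨ω, h1, h2, h3, h4.trans hx6⟩
  choose A hA0 hA1 hA2 hA6 using hA
  choose B hB0 hB1 hB2 hB6 using hB
  choose C hC0 hC1 hC2 hC6 using hC
  let e : G := ⟨o 6, mk o ho⟩
  have hAe : A e = o := hU 1 2 6 (by decide) (by decide) (by decide) (by decide) _ (hA0 e) _ ho
    (hA1 e) (hA2 e) (hA6 e)
  have hBe : B e = o := hU 0 2 6 (by decide) (by decide) (by decide) (by decide) _ (hB0 e) _ ho
    (hB1 e) (hB2 e) (hB6 e)
  have hCe : C e = o := hU 0 1 6 (by decide) (by decide) (by decide) (by decide) _ (hC0 e) _ ho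
    (hC1 e) (hC2 e) (hC6 e)
  have hT : ∀ a b c : G, ∃ ω, ω ∈ S ∧ ω 0 = A a 0 ∧ ω 1 = B b 1 ∧ ω 2 = C c 2 := by
    intro a b c
    obtain ⟨ω, h1, h2, h3, h4⟩ := hE 0 1 2 (by decide) (by decide) (by decide) (by decide)
      _ (hA0 a) _ (hB0 b) _ (hC0 c)
    exact ⟨ω, h1, h2, h3, h4⟩
  choose T hT0 hT1 hT2 hT3 using hT
  let W : G → G → G → G := fun a b c => ⟨T a b c 6, mk _ (hT0 a b c)⟩
  have hW : ∀ a b c, (W a b c).1 = T a b c 6 := fun _ _ _ => rfl
  have eB1 : B e 1 = o 1 := by rw [hBe]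
  have eA0 : A e 0 = o 0 := by rw [hAe]
  have eC2 : C e 2 = o 2 := by rw [hCe]
  -- W g e e = g etc.
  have w1 : ∀ g, W g e e = g := by
    intro g
    apply Subtype.ext
    rw [hW, ← hA6 g]
    have : T g e e = A g := hU 0 1 2 (by decide) (by decide) (by decide) (by decide) _ (hT0 _ _ _)
      _ (hA0 g) (hT1 _ _ _) ((hT2 _ _ _).trans (eB1.trans (hA1 g).symm))
      ((hT3 _ _ _).trans (eC2.trans (hA2 g).symm))
    rw [this]
  have w2 : ∀ g, W e g e = g := by
    intro g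
    apply Subtype.ext
    rw [hW, ← hB6 g]
    have : T e g e = B g := hU 0 1 2 (by decide) (by decide) (by decide) (by decide) _ (hT0 _ _ _)
      _ (hB0 g) ((hT1 _ _ _).trans (eA0.trans (hB1 g).symm)) (hT2 _ _ _)
      ((hT3 _ _ _).trans (eC2.trans (hB2 g).symm))
    rw [this]
  have w3 : ∀ g, W e e g = g := by
    intro g
    apply Subtype.ext
    rw [hW, ← hC6 g]
    have : T e e g = C g := hU 0 1 2 (by decide) (by decide) (by decide) (by decide) _ (hT0 _ _ _)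
      _ (hC0 g) ((hT1 _ _ _).trans (eA0.trans (hC1 g).symm))
      ((hT2 _ _ _).trans (eB1.trans (hC2 g).symm)) (hT3 _ _ _)
    rw [this]
  -- the three associativity relations
  have c1 : ∀ a b c, W a b c = W (W a b e) e c := by
    intro a b c
    apply Subtype.ext
    rw [hW a b c, hW (W a b e) e c]
    have h3 : T a b c 3 = T a b e 3 := hL 0 1 3 (by decide) _ (hT0 _ _ _) _ (hT0 _ _ _)
      ((hT1 _ _ _).trans (hT1 _ _ _).symm) ((hT2 _ _ _).trans (hT2 _ _ _).symm)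
    have h4 : T a b e 3 = A (W a b e) 3 := hL 2 6 3 (by decide) _ (hT0 _ _ _) _ (hA0 _)
      ((hT3 _ _ _).trans (eC2.trans (hA2 _).symm)) ((hW _ _ _).symm.trans (hA6 _).symm)
    have h5 : T (W a b e) e c 3 = A (W a b e) 3 := hL 0 1 3 (by decide) _ (hT0 _ _ _) _ (hA0 _)
      (hT1 _ _ _) ((hT2 _ _ _).trans (eB1.trans (hA1 _).symm))
    exact hL 2 3 6 (by decide) _ (hT0 _ _ _) _ (hT0 _ _ _) ((hT3 _ _ _).trans (hT3 _ _ _).symm)
      (h3.trans (h4.trans h5.symm))
  have c2 : ∀ a b c, W a b c = W a (W e b c) e := by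
    intro a b c
    apply Subtype.ext
    rw [hW a b c, hW a (W e b c) e]
    have h3 : T a b c 4 = T e b c 4 := hL 1 2 4 (by decide) _ (hT0 _ _ _) _ (hT0 _ _ _)
      ((hT2 _ _ _).trans (hT2 _ _ _).symm) ((hT3 _ _ _).trans (hT3 _ _ _).symm)
    have h4 : T e b c 4 = B (W e b c) 4 := hL 0 6 4 (by decide) _ (hT0 _ _ _) _ (hB0 _)
      ((hT1 _ _ _).trans (eA0.trans (hB1 _).symm)) ((hW _ _ _).symm.trans (hB6 _).symm)
    have h5 : T a (W e b c) e 4 = B (W e b c) 4 := hL 1 2 4 (by decide) _ (hT0 _ _ _) _ (hB0 _)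
      (hT2 _ _ _) ((hT3 _ _ _).trans (eC2.trans (hB2 _).symm))
    exact hL 0 4 6 (by decide) _ (hT0 _ _ _) _ (hT0 _ _ _) ((hT1 _ _ _).trans (hT1 _ _ _).symm)
      (h3.trans (h4.trans h5.symm))
  have c3 : ∀ a b c, W a b c = W (W a e c) b e := by
    intro a b c
    apply Subtype.ext
    rw [hW a b c, hW (W a e c) b e]
    have h3 : T a b c 5 = T a e c 5 := hL 0 2 5 (by decide) _ (hT0 _ _ _) _ (hT0 _ _ _)
      ((hT1 _ _ _).trans (hT1 _ _ _).symm) ((hT3 _ _ _).trans (hT3 _ _ _).symm)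
    have h4 : T a e c 5 = A (W a e c) 5 := hL 1 6 5 (by decide) _ (hT0 _ _ _) _ (hA0 _)
      ((hT2 _ _ _).trans (eB1.trans (hA1 _).symm)) ((hW _ _ _).symm.trans (hA6 _).symm)
    have h5 : T (W a e c) b e 5 = A (W a e c) 5 := hL 0 2 5 (by decide) _ (hT0 _ _ _) _ (hA0 _)
      (hT1 _ _ _) ((hT3 _ _ _).trans (eC2.trans (hA2 _).symm))
    exact hL 1 5 6 (by decide) _ (hT0 _ _ _) _ (hT0 _ _ _) ((hT2 _ _ _).trans (hT2 _ _ _).symm)
      (h3.trans (h4.trans h5.symm))
  -- all three operations coincide and are commutative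
  have hh : ∀ a c, W a e c = W a c e := by
    intro a c
    rw [c2 a e c, w3]
  have hg1 : ∀ b c, W e b c = W c b e := by
    intro b c
    rw [c3 e b c, w3]
  have hg2 : ∀ b c, W e b c = W b c e := by
    intro b c
    rw [c1 e b c, w2, hh]
  have hcomm : ∀ b c, W b c e = W c b e := fun b c => (hg2 b c).symm.trans (hg1 b c)
  -- inverses
  have hinv : ∀ a : G, ∃ b : G, W a b e = e := by
    intro a
    obtain ⟨ω, h1, h2, h3, h4⟩ := hE 0 2 6 (by decide) (by decide) (by decide) (by decide)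
      _ (hA0 a) _ ho _ ho
    obtain ⟨x, k1, k2, k3, k4⟩ := hE 0 1 2 (by decide) (by decide) (by decide) (by decide)
      _ ho _ h1 _ ho
    refine ⟨⟨x 6, mk x k1⟩, ?_⟩
    have hx : B ⟨x 6, mk x k1⟩ = x := hU 0 2 6 (by decide) (by decide) (by decide) (by decide)
      _ (hB0 _) _ k1 ((hB1 _).trans k2.symm) ((hB2 _).trans k4.symm) (hB6 _)
    apply Subtype.ext
    rw [hW]
    have : T a ⟨x 6, mk x k1⟩ e = ω := hU 0 1 2 (by decide) (by decide) (by decide) (by decide)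
      _ (hT0 _ _ _) _ h1 ((hT1 _ _ _).trans h2.symm)
      ((hT2 _ _ _).trans ((by rw [hx] : B ⟨x 6, mk x k1⟩ 1 = x 1).trans k3))
      ((hT3 _ _ _).trans (eC2.trans h3.symm))
    rw [this]
    exact h4
  have hBinj : ∀ b b' : G, B b 1 = B b' 1 → b = b' := by
    intro b b' h
    have : B b = B b' := hU 0 1 2 (by decide) (by decide) (by decide) (by decide) _ (hB0 _) _
      (hB0 _) ((hB1 _).trans (hB1 _).symm) h ((hB2 _).trans (hB2 _).symm)
    apply Subtype.ext
    rw [← hB6 b, ← hB6 b', this]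
  have hAinj : ∀ b b' : G, A b 0 = A b' 0 → b = b' := by
    intro b b' h
    have : A b = A b' := hU 0 1 2 (by decide) (by decide) (by decide) (by decide) _ (hA0 _) _
      (hA0 _) h ((hA1 _).trans (hA1 _).symm) ((hA2 _).trans (hA2 _).symm)
    apply Subtype.ext
    rw [← hA6 b, ← hA6 b', this]
  have huniq : ∀ a b b' : G, W a b e = e → W a b' e = e → b = b' := by
    intro a b b' h h'
    have k := congrArg Subtype.val h
    have k' := congrArg Subtype.val h'
    rw [hW] at k k'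
    have : T a b e = T a b' e := hU 0 2 6 (by decide) (by decide) (by decide) (by decide)
      _ (hT0 _ _ _) _ (hT0 _ _ _) ((hT1 _ _ _).trans (hT1 _ _ _).symm)
      ((hT3 _ _ _).trans (hT3 _ _ _).symm) (k.trans k'.symm)
    apply hBinj
    rw [← hT2 a b e, ← hT2 a b' e, this]
  choose inv hinv using hinv
  have hii : ∀ a, inv (inv a) = a := by
    intro a
    apply huniq (inv a) _ _ (hinv (inv a))
    rw [hcomm]
    exact hinv a
  have hfe : inv e = e := huniq e _ _ (hinv e) (w1 e)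
  -- an element of order two
  have hex : ∃ t : G, t ≠ e ∧ inv t = t := by
    have : Fintype G := inferInstanceAs (Fintype {n : ℕ // n ∈ s})
    have : Fact (Nat.Prime 2) := ⟨Nat.prime_two⟩
    let F : Function.End G := inv
    have hF : F ^ 2 ^ 1 = 1 := by
      rw [pow_one, pow_two]
      funext a
      exact hii a
    have h := Equiv.Perm.card_fixedPoints_modEq hF
    have hc : Fintype.card G = s.card := Fintype.card_coe s
    rw [hc] at h
    have h0 : s.card ≡ 0 [MOD 2] := (Nat.even_iff.1 hcard)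
    have h1 : Fintype.card (Function.fixedPoints F) ≡ 0 [MOD 2] := h.symm.trans h0
    by_contra hne
    push Not at hne
    have h2 : Fintype.card (Function.fixedPoints F) = 1 := by
      rw [Fintype.card_eq_one_iff]
      refine ⟨⟨e, hfe⟩, fun y => ?_⟩
      apply Subtype.ext
      by_contra hy
      exact hne y.1 hy y.2
    rw [h2] at h1
    exact absurd h1 (by decide)
  obtain ⟨t, hte, htt⟩ := hex
  have hf : W t t e = e := by
    have := hinv t
    rwa [htt] at this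
  have hfo : T t t e 6 = o 6 := by
    have := congrArg Subtype.val hf
    rwa [hW] at this
  have hgo : T e t t 6 = o 6 := by
    have := congrArg Subtype.val ((hg2 t t).trans hf)
    rwa [hW] at this
  have hho : T t e t 6 = o 6 := by
    have := congrArg Subtype.val ((hh t t).trans hf)
    rwa [hW] at this
  have k3 : T t t t 3 = o 3 := by
    have a1 : T t t t 3 = T t t e 3 := hL 0 1 3 (by decide) _ (hT0 _ _ _) _ (hT0 _ _ _)
      ((hT1 _ _ _).trans (hT1 _ _ _).symm) ((hT2 _ _ _).trans (hT2 _ _ _).symm)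
    have a2 : T t t e 3 = o 3 := hL 2 6 3 (by decide) _ (hT0 _ _ _) _ ho
      ((hT3 _ _ _).trans eC2) hfo
    exact a1.trans a2
  have k4 : T t t t 4 = o 4 := by
    have a1 : T t t t 4 = T e t t 4 := hL 1 2 4 (by decide) _ (hT0 _ _ _) _ (hT0 _ _ _)
      ((hT2 _ _ _).trans (hT2 _ _ _).symm) ((hT3 _ _ _).trans (hT3 _ _ _).symm)
    have a2 : T e t t 4 = o 4 := hL 0 6 4 (by decide) _ (hT0 _ _ _) _ ho
      ((hT1 _ _ _).trans eA0) hgo
    exact a1.trans a2
  have k5 : T t t t 5 = o 5 := by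
    have a1 : T t t t 5 = T t e t 5 := hL 0 2 5 (by decide) _ (hT0 _ _ _) _ (hT0 _ _ _)
      ((hT1 _ _ _).trans (hT1 _ _ _).symm) ((hT3 _ _ _).trans (hT3 _ _ _).symm)
    have a2 : T t e t 5 = o 5 := hL 1 6 5 (by decide) _ (hT0 _ _ _) _ ho
      ((hT2 _ _ _).trans eB1) hho
    exact a1.trans a2
  have hfin : T t t t = o := hU 3 4 5 (by decide) (by decide) (by decide) (by decide) _
    (hT0 _ _ _) _ ho k3 k4 k5
  apply hte
  apply hAinj
  rw [hAe, ← hT1 t t t, hfin]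

end Pool.Agent.H75MX.Comb
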