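import Mathlib

set_option autoImplicit false

/-!
# Matroids on `Fin n`, p-characteristic sets, excluded minors
-/

namespace Pool.Agent.H75MX

/-- A matroid on the ground set `{0, …, n-1}`, given by its rank function. -/
structure Mat (n : ℕ) where
  r : Finset (Fin n) → ℕ
  r_le_card : ∀ A, r A ≤ A.card
  r_mono : ∀ A B, A ⊆ B → r A ≤ r B
  r_submod : ∀ A B, r (A ∪ B) + r (A ∩ B) ≤ r A + r B

/-- Isomorphism of matroids. -/
def Iso {m n : ℕ} (N : Mat m) (M : Mat n) : Prop :=
  ∃ f : Fin m ≃ Fin n, ∀ A, M.r (A.map f.toEmbedding) = N.r A

/-- `N` is isomorphic to a minor of `M`: the elements of `C` are contracted, the elements outside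
`C` and the range of `f` are deleted, and `f` is an isomorphism of `N` with the result. -/
def IsMinor {m n : ℕ} (N : Mat m) (M : Mat n) : Prop :=
  ∃ (C : Finset (Fin n)) (f : Fin m ↪ Fin n), (∀ i, f i ∉ C) ∧
    ∀ A, M.r (A.map f ∪ C) = N.r A + M.r C

/-- The p-characteristic set: the integers `v ≥ 2` for which `log v` times the rank function is
the entropy function of a discrete random vector (with values in `ℕ`, which is no restriction). -/
def chi {n : ℕ} (M : Mat n) : Set ℕ :=
  {v | 2 ≤ v ∧ ∃ q : PMF (Fin n → ℕ), ∀ A : Finset (Fin n),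
    HasSum (fun a : A → ℕ => Real.negMulLog ((q.map (fun x (i : A) => x i)) a).toReal)
      (Real.log v * M.r A)}

/-- `M` is represented over the field `K` by a family of vectors. -/
def RepOver {n : ℕ} (K : Type) [Field K] (M : Mat n) : Prop :=
  ∃ (V : Type) (_ : AddCommGroup V) (_ : Module K V) (x : Fin n → V),
    ∀ A : Finset (Fin n), Module.finrank K (Submodule.span K (x '' (A : Set (Fin n)))) = M.r A

/-- Regular matroids: representable over every field. -/
def Regular {n : ℕ} (M : Mat n) : Prop := ∀ (K : Type) [Field K], RepOver K M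

/-- The class `𝓜'`. -/
def InClass {n : ℕ} (M : Mat n) : Prop := Regular M ∨ chi M = {v | 3 ≤ v ∧ v ≠ 6}

/-- Excluded minors of `𝓜'`. -/
def ExcludedMinor {n : ℕ} (M : Mat n) : Prop :=
  ¬ InClass M ∧ ∀ (m : ℕ) (N : Mat m), IsMinor N M → m < n → InClass N

/-- The uniform matroid. -/
def unif (k n : ℕ) : Mat n where
  r A := min A.card k
  r_le_card A := min_le_left _ _
  r_mono A B h := min_le_min (Finset.card_le_card h) le_rfl
  r_submod A B := by
    have h1 := Finset.card_union_add_card_inter A B
    have h2 := Finset.card_le_card (Finset.inter_subset_left : A ∩ B ⊆ A)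
    have h3 := Finset.card_le_card (Finset.inter_subset_right : A ∩ B ⊆ B)
    omega

/-- The dual matroid. -/
def dual {n : ℕ} (M : Mat n) : Mat n where
  r A := A.card + M.r Aᶜ - M.r Finset.univ
  r_le_card A := by
    have h := M.r_mono Aᶜ Finset.univ (Finset.subset_univ _)
    omega
  r_mono A B h := by
    have h1 := M.r_submod Bᶜ (B \ A)
    have h2 : Bᶜ ∪ (B \ A) = Aᶜ := by
      ext x
      simp only [Finset.mem_union, Finset.mem_compl, Finset.mem_sdiff]
      have := @h x
      tauto
    have h3 := M.r_le_card (B \ A)
    have h4 := Finset.card_sdiff_add_card_eq_card h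
    rw [h2] at h1
    omega
  r_submod A B := by
    have h1 := Finset.card_union_add_card_inter A B
    have h2 := M.r_submod Aᶜ Bᶜ
    rw [← Finset.compl_inter, ← Finset.compl_union] at h2
    have key : ∀ C : Finset (Fin n), M.r Finset.univ ≤ C.card + M.r Cᶜ := by
      intro C
      have k1 := M.r_submod C Cᶜ
      have k2 := M.r_le_card C
      rw [Finset.union_compl] at k1
      omega
    have := key A
    have := key B
    have := key (A ∪ B)
    have := key (A ∩ B)
    omega

/-- The simple matroid of rank at most three whose lines with three or more points are the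
three-element sets in `L`; any two of them have at most one common point. -/
def ofLines {n : ℕ} (L : Finset (Finset (Fin n))) (h1 : ∀ l ∈ L, l.card = 3)
    (h2 : ∀ l ∈ L, ∀ l' ∈ L, l ≠ l' → (l ∩ l').card ≤ 1) : Mat n where
  r A := if A ∈ L then 2 else min A.card 3
  r_le_card A := by
    split_ifs with h
    · have := h1 A h; omega
    · exact min_le_left _ _
  r_mono A B h := by
    have hc := Finset.card_le_card h
    by_cases hA : A ∈ L <;> by_cases hB : B ∈ L
    · simp only [hA, hB, if_true]; exact le_rfl
    · simp only [hA, hB, if_true, if_false]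
      have := h1 A hA
      omega
    · simp only [hA, hB, if_true, if_false]
      have h3 := h1 B hB
      have : A.card ≠ 3 := by
        intro h4
        exact hA ((Finset.eq_of_subset_of_card_le h (by omega)) ▸ hB)
      omega
    · simp only [hA, hB, if_false]
      omega
  r_submod A B := by
    have hub : ∀ C : Finset (Fin n), (if C ∈ L then 2 else min C.card 3) ≤ min C.card 3 := by
      intro C
      split_ifs with h
      · have := h1 C h; omega
      · exact le_rfl
    have hu := Finset.card_union_add_card_inter A B
    have hAc := Finset.card_le_card (Finset.inter_subset_left : A ∩ B ⊆ A)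
    have hBc := Finset.card_le_card (Finset.inter_subset_right : A ∩ B ⊆ B)
    have u1 := hub (A ∪ B)
    have u2 := hub (A ∩ B)
    have main : ∀ A B : Finset (Fin n), A ∈ L → B ∉ L →
        (if A ∪ B ∈ L then 2 else min (A ∪ B).card 3) +
          (if A ∩ B ∈ L then 2 else min (A ∩ B).card 3) ≤ 2 + min B.card 3 := by
      intro A B hA hB
      have u1 := hub (A ∪ B)
      have u2 := hub (A ∩ B)
      have hBc := Finset.card_le_card (Finset.inter_subset_right : A ∩ B ⊆ B)
      by_cases hAB : A ⊆ B
      · rw [Finset.union_eq_right.2 hAB, Finset.inter_eq_left.2 hAB, if_neg hB, if_pos hA]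
        omega
      · by_cases hBA : B ⊆ A
        · rw [Finset.union_eq_left.2 hBA, Finset.inter_eq_right.2 hBA, if_neg hB, if_pos hA]
        · have g1 : (A ∩ B).card < B.card := by
            apply Finset.card_lt_card
            refine ⟨Finset.inter_subset_right, fun h => hBA ?_⟩
            exact h.trans Finset.inter_subset_left
          have g2 : (A ∩ B).card < A.card := by
            apply Finset.card_lt_card
            refine ⟨Finset.inter_subset_left, fun h => hAB ?_⟩
            exact h.trans Finset.inter_subset_right
          have g3 := h1 A hA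
          omega
    by_cases hA : A ∈ L <;> by_cases hB : B ∈ L
    · rw [if_pos hA, if_pos hB]
      by_cases hne : A = B
      · subst hne
        rw [Finset.union_self, Finset.inter_self, if_pos hA]
      · have := h2 A hA B hB hne
        omega
    · rw [if_pos hA, if_neg hB]
      exact main A B hA hB
    · rw [if_neg hA, if_pos hB]
      have := main B A hB hA
      rw [Finset.union_comm, Finset.inter_comm] at this
      omega
    · rw [if_neg hA, if_neg hB]
      omega

set_option maxRecDepth 100000 in
/-- The non-Fano matroid. -/
def nonFano : Mat 7 :=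
  ofLines {{0, 1, 3}, {1, 2, 4}, {0, 2, 5}, {0, 4, 6}, {1, 5, 6}, {2, 3, 6}} (by decide) (by decide)

set_option maxRecDepth 100000 in
/-- The Fano matroid. -/
def fano : Mat 7 :=
  ofLines {{0, 1, 3}, {1, 2, 4}, {0, 2, 5}, {0, 4, 6}, {1, 5, 6}, {2, 3, 6}, {3, 4, 5}}
    (by decide) (by decide)

end Pool.Agent.H75MX
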