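import Mathlib

set_option autoImplicit false

/-!
# Equality cases for the Shannon entropy of discrete random variables

`pr q φ t` is the probability of the value `t` of the random variable `φ` under the distribution `q`.
-/

namespace Pool.Agent.H75MX.Ent

open Real

variable {Ω S T : Type*}

/-- The probability that `φ` has the value `t`. -/
noncomputable def pr (q : PMF Ω) (φ : Ω → S) (t : S) : ℝ := (q.map φ t).toReal

lemma pr_nonneg (q : PMF Ω) (φ : Ω → S) (t : S) : 0 ≤ pr q φ t := ENNReal.toReal_nonneg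

lemma pr_le_one (q : PMF Ω) (φ : Ω → S) (t : S) : pr q φ t ≤ 1 := by
  have h := (q.map φ).coe_le_one t
  exact ENNReal.toReal_le_of_le_ofReal zero_le_one (by simpa using h)

lemma hasSum_pr (q : PMF Ω) (φ : Ω → S) : HasSum (pr q φ) 1 := by
  have h : ∑' t, (q.map φ) t = 1 := (q.map φ).tsum_coe
  have h2 := ENNReal.hasSum_toReal (f := fun t => (q.map φ) t) (by rw [h]; simp)
  have h3 : ∑' t, ((q.map φ) t).toReal = 1 := by
    rw [← ENNReal.tsum_toReal_eq (fun t => (q.map φ).apply_ne_top t), h]; simp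
  rw [h3] at h2
  exact h2

lemma pr_pos_iff (q : PMF Ω) (φ : Ω → S) (t : S) :
    0 < pr q φ t ↔ ∃ ω ∈ q.support, φ ω = t := by
  rw [← PMF.mem_support_map_iff (f := φ) (p := q), PMF.mem_support_iff]
  unfold pr
  rw [ENNReal.toReal_pos_iff]
  constructor
  · intro h; exact h.1.ne'
  · intro h; exact ⟨pos_iff_ne_zero.2 h, (PMF.apply_ne_top _ _).lt_top⟩

lemma pr_inj (q : PMF Ω) (φ : Ω → S) (e : S → T) (he : Function.Injective e) (t : S) :
    pr q (fun ω => e (φ ω)) (e t) = pr q φ t := by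
  unfold pr
  congr 1
  rw [PMF.map_apply, PMF.map_apply]
  refine tsum_congr fun a => ?_
  by_cases h : t = φ a
  · rw [if_pos h, if_pos (by rw [h])]
  · rw [if_neg h, if_neg (fun h' => h (he h'))]

lemma pr_zero (q : PMF Ω) (φ : Ω → S) (t : S) (h : ∀ ω ∈ q.support, φ ω ≠ t) : pr q φ t = 0 := by
  by_contra hne
  have : 0 < pr q φ t := lt_of_le_of_ne (pr_nonneg _ _ _) (Ne.symm hne)
  obtain ⟨ω, hω, he⟩ := (pr_pos_iff q φ t).1 this
  exact h ω hω he

/-- The entropy does not change under injective maps. -/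
lemma ent_inj (q : PMF Ω) (φ : Ω → S) (e : S → T) (he : Function.Injective e) (h : ℝ)
    (hs : HasSum (fun t => negMulLog (pr q φ t)) h) :
    HasSum (fun t => negMulLog (pr q (fun ω => e (φ ω)) t)) h := by
  have hz : ∀ t ∉ Set.range e, negMulLog (pr q (fun ω => e (φ ω)) t) = 0 := by
    intro t ht
    rw [pr_zero q _ t (fun ω _ h' => ht ⟨_, h'⟩)]
    simp
  rw [← he.hasSum_iff hz]
  convert hs using 2 with t
  simp only [Function.comp]
  rw [pr_inj q φ e he]

/-- The first marginal. -/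
lemma hasSum_fst (q : PMF Ω) (φ : Ω → S) (ψ : Ω → T) (s : S) :
    HasSum (fun t => pr q (fun ω => (φ ω, ψ ω)) (s, t)) (pr q φ s) := by
  have h1 : (q.map φ) s = ∑' t, (q.map (fun ω => (φ ω, ψ ω))) (s, t) := by
    have : q.map φ = (q.map (fun ω => (φ ω, ψ ω))).map Prod.fst := by
      rw [PMF.map_comp]; rfl
    rw [this, PMF.map_apply, ENNReal.tsum_prod', tsum_eq_single s]
    · simp
    · intro s' hs'
      simp [Ne.symm hs']
  have hne : ∑' t, (q.map (fun ω => (φ ω, ψ ω))) (s, t) ≠ ⊤ := by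
    rw [← h1]; exact PMF.apply_ne_top _ _
  have h2 := ENNReal.hasSum_toReal hne
  have h3 : ∑' t, ((q.map (fun ω => (φ ω, ψ ω))) (s, t)).toReal = pr q φ s := by
    rw [← ENNReal.tsum_toReal_eq (fun t => PMF.apply_ne_top _ _), ← h1]; rfl
  rw [h3] at h2
  exact h2

lemma hasSum_snd (q : PMF Ω) (φ : Ω → S) (ψ : Ω → T) (t : T) :
    HasSum (fun s => pr q (fun ω => (φ ω, ψ ω)) (s, t)) (pr q ψ t) := by
  have h := hasSum_fst q ψ φ t
  convert h using 2 with s
  have := pr_inj q (fun ω => (φ ω, ψ ω)) (Prod.swap) Prod.swap_injective (s, t)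
  simpa using this.symm

lemma le_fst (q : PMF Ω) (φ : Ω → S) (ψ : Ω → T) (s : S) (t : T) :
    pr q (fun ω => (φ ω, ψ ω)) (s, t) ≤ pr q φ s :=
  le_hasSum (hasSum_fst q φ ψ s) t (fun _ _ => pr_nonneg _ _ _)

lemma le_snd (q : PMF Ω) (φ : Ω → S) (ψ : Ω → T) (s : S) (t : T) :
    pr q (fun ω => (φ ω, ψ ω)) (s, t) ≤ pr q ψ t :=
  le_hasSum (hasSum_snd q φ ψ t) s (fun _ _ => pr_nonneg _ _ _)

lemma neglog_nonneg (q : PMF Ω) (φ : Ω → S) (s : S) : 0 ≤ -Real.log (pr q φ s) :=
  neg_nonneg.2 (Real.log_nonpos (pr_nonneg _ _ _) (pr_le_one _ _ _))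

/-- Fibrewise computation of the entropy of the first variable. -/
lemma ent_fst (q : PMF Ω) (φ : Ω → S) (ψ : Ω → T) (h : ℝ)
    (hs : HasSum (fun s => negMulLog (pr q φ s)) h) :
    HasSum (fun u : S × T => pr q (fun ω => (φ ω, ψ ω)) u * -Real.log (pr q φ u.1)) h := by
  have hf : ∀ s, HasSum (fun t => pr q (fun ω => (φ ω, ψ ω)) (s, t) * -Real.log (pr q φ s))
      (pr q φ s * -Real.log (pr q φ s)) := fun s => (hasSum_fst q φ ψ s).mul_right _
  have hsum : Summable (fun u : S × T =>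
      pr q (fun ω => (φ ω, ψ ω)) u * -Real.log (pr q φ u.1)) := by
    rw [summable_prod_of_nonneg]
    · refine ⟨fun s => (hf s).summable, ?_⟩
      have : (fun s => ∑' t, pr q (fun ω => (φ ω, ψ ω)) (s, t) * -Real.log (pr q φ s)) =
          fun s => negMulLog (pr q φ s) := by
        funext s
        rw [(hf s).tsum_eq]
        unfold negMulLog
        ring
      simp only at this ⊢
      rw [this]
      exact hs.summable
    · intro u
      exact mul_nonneg (pr_nonneg _ _ _) (neglog_nonneg _ _ _)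
  have h1 := hsum.hasSum.prod_fiberwise (g := fun s => pr q φ s * -Real.log (pr q φ s)) hf
  have h2 : (fun s => pr q φ s * -Real.log (pr q φ s)) = fun s => negMulLog (pr q φ s) := by
    funext s; unfold negMulLog; ring
  rw [h2] at h1
  rw [← h1.unique hs]
  exact hsum.hasSum

lemma ent_snd (q : PMF Ω) (φ : Ω → S) (ψ : Ω → T) (h : ℝ)
    (hs : HasSum (fun s => negMulLog (pr q ψ s)) h) :
    HasSum (fun u : S × T => pr q (fun ω => (φ ω, ψ ω)) u * -Real.log (pr q ψ u.2)) h := by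
  have h1 := ent_fst q ψ φ h hs
  rw [← (Equiv.prodComm T S).hasSum_iff]
  convert h1 using 2 with u
  simp only [Function.comp, Equiv.prodComm_apply, Prod.snd_swap]
  congr 1
  have := pr_inj q (fun ω => (ψ ω, φ ω)) (Prod.swap) Prod.swap_injective u
  simpa using this

/-- If `(φ, ψ)` has the entropy of `φ` then `ψ` is a function of `φ`. -/
lemma det (q : PMF Ω) (φ : Ω → S) (ψ : Ω → T) (h : ℝ)
    (h1 : HasSum (fun s => negMulLog (pr q φ s)) h)
    (h2 : HasSum (fun u => negMulLog (pr q (fun ω => (φ ω, ψ ω)) u)) h)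
    (s : S) (t : T) (hpos : 0 < pr q (fun ω => (φ ω, ψ ω)) (s, t)) :
    pr q (fun ω => (φ ω, ψ ω)) (s, t) = pr q φ s := by
  have h3 := h2.sub (ent_fst q φ ψ h h1)
  rw [sub_self] at h3
  have hnn : ∀ u : S × T, 0 ≤ negMulLog (pr q (fun ω => (φ ω, ψ ω)) u) -
      pr q (fun ω => (φ ω, ψ ω)) u * -Real.log (pr q φ u.1) := by
    intro u
    have hle := le_fst q φ ψ u.1 u.2
    rcases (pr_nonneg q (fun ω => (φ ω, ψ ω)) u).eq_or_lt with h0 | h0
    · rw [← h0]; simp
    · have := Real.log_le_log h0 hle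
      unfold negMulLog
      nlinarith
  have h4 := (hasSum_zero_iff_of_nonneg hnn).1 h3
  have h5 := congrFun h4 (s, t)
  simp only [Pi.zero_apply] at h5
  unfold negMulLog at h5
  have hg : 0 < pr q φ s := lt_of_lt_of_le hpos (le_fst q φ ψ s t)
  have h6 : Real.log (pr q (fun ω => (φ ω, ψ ω)) (s, t)) = Real.log (pr q φ s) := by
    have : pr q (fun ω => (φ ω, ψ ω)) (s, t) *
      (Real.log (pr q φ s) - Real.log (pr q (fun ω => (φ ω, ψ ω)) (s, t))) = 0 := by linarith
    rcases mul_eq_zero.1 this with h | h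
    · exact absurd h hpos.ne'
    · linarith
  exact Real.log_injOn_pos hpos hg h6

/-- If the entropy of `(φ, ψ)` is the sum of the entropies then `φ` and `ψ` are independent. -/
lemma indep (q : PMF Ω) (φ : Ω → S) (ψ : Ω → T) (a b : ℝ)
    (h1 : HasSum (fun s => negMulLog (pr q φ s)) a)
    (h2 : HasSum (fun s => negMulLog (pr q ψ s)) b)
    (h3 : HasSum (fun u => negMulLog (pr q (fun ω => (φ ω, ψ ω)) u)) (a + b))
    (s : S) (t : T) :
    pr q (fun ω => (φ ω, ψ ω)) (s, t) = pr q φ s * pr q ψ t := by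
  have e1 := ent_fst q φ ψ a h1
  have e2 := ent_snd q φ ψ b h2
  have e3 := hasSum_pr q (fun ω => (φ ω, ψ ω))
  have e4 : HasSum (fun u : S × T => pr q φ u.1 * pr q ψ u.2) (1 * 1) :=
    (hasSum_pr q φ).mul (hasSum_pr q ψ)
      ((hasSum_pr q φ).summable.mul_of_nonneg (hasSum_pr q ψ).summable (pr_nonneg q φ)
        (pr_nonneg q ψ))
  have e5 := (((e1.add e2).sub h3).sub e3).add e4
  have e6 : a + b - (a + b) - 1 + 1 * 1 = (0 : ℝ) := by ring
  rw [e6] at e5
  have hnn : ∀ u : S × T, 0 ≤ pr q (fun ω => (φ ω, ψ ω)) u * -Real.log (pr q φ u.1) +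
      pr q (fun ω => (φ ω, ψ ω)) u * -Real.log (pr q ψ u.2) -
      negMulLog (pr q (fun ω => (φ ω, ψ ω)) u) - pr q (fun ω => (φ ω, ψ ω)) u +
      pr q φ u.1 * pr q ψ u.2 ∧ (pr q (fun ω => (φ ω, ψ ω)) u * -Real.log (pr q φ u.1) +
      pr q (fun ω => (φ ω, ψ ω)) u * -Real.log (pr q ψ u.2) -
      negMulLog (pr q (fun ω => (φ ω, ψ ω)) u) - pr q (fun ω => (φ ω, ψ ω)) u +
      pr q φ u.1 * pr q ψ u.2 = 0 → pr q (fun ω => (φ ω, ψ ω)) u = pr q φ u.1 * pr q ψ u.2) := by
    intro u
    have g1 := pr_nonneg q φ u.1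
    have k1 := pr_nonneg q ψ u.2
    have hle := le_fst q φ ψ u.1 u.2
    have hle2 := le_snd q φ ψ u.1 u.2
    rcases (pr_nonneg q (fun ω => (φ ω, ψ ω)) u).eq_or_lt with h0 | h0
    · rw [← h0]
      simp only [zero_mul, negMulLog_zero, sub_zero, zero_add, add_zero]
      exact ⟨mul_nonneg g1 k1, fun h => h.symm⟩
    · have hg : 0 < pr q φ u.1 := lt_of_lt_of_le h0 hle
      have hk : 0 < pr q ψ u.2 := lt_of_lt_of_le h0 hle2
      set f := pr q (fun ω => (φ ω, ψ ω)) u
      set g := pr q φ u.1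
      set k := pr q ψ u.2
      have key : f * -Real.log g + f * -Real.log k - negMulLog f - f + g * k =
          f * (g * k / f - 1 - Real.log (g * k / f)) := by
        rw [Real.log_div (mul_pos hg hk).ne' h0.ne', Real.log_mul hg.ne' hk.ne']
        unfold negMulLog
        field_simp
        ring
      have hx : 0 < g * k / f := div_pos (mul_pos hg hk) h0
      rw [key]
      refine ⟨mul_nonneg h0.le (by have := Real.log_le_sub_one_of_pos hx; linarith), fun h => ?_⟩
      rcases mul_eq_zero.1 h with h | h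
      · exact absurd h h0.ne'
      · by_contra hne
        have hne' : g * k / f ≠ 1 := by
          intro h'
          rw [div_eq_one_iff_eq h0.ne'] at h'
          exact hne h'.symm
        have := Real.log_lt_sub_one_of_pos hx hne'
        linarith
  have h4 := (hasSum_zero_iff_of_nonneg (fun u => (hnn u).1)).1 e5
  exact (hnn (s, t)).2 (congrFun h4 (s, t))

end Pool.Agent.H75MX.Ent
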