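import Pool.Agent.H75MX.Ent
import Pool.Agent.H75MX.Comb

set_option autoImplicit false

namespace Pool.Agent.H75MX.Ent

open Real

variable {Ω S T : Type*}

lemma pr_self_pos (q : PMF Ω) (φ : Ω → S) (ω : Ω) (hω : ω ∈ q.support) : 0 < pr q φ (φ ω) :=
  (pr_pos_iff q φ _).2 ⟨ω, hω, rfl⟩

lemma det' (q : PMF Ω) (φ : Ω → S) (ψ : Ω → T) (h : ℝ)
    (h1 : HasSum (fun s => negMulLog (pr q φ s)) h)
    (h2 : HasSum (fun u => negMulLog (pr q (fun ω => (φ ω, ψ ω)) u)) h) :
    ∀ ω ∈ q.support, ∀ ω' ∈ q.support, φ ω = φ ω' → ψ ω = ψ ω' := by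
  classical
  intro ω hω ω' hω' he
  by_contra hne
  have p1 := pr_self_pos q (fun ω => (φ ω, ψ ω)) ω hω
  have p2 := pr_self_pos q (fun ω => (φ ω, ψ ω)) ω' hω'
  have e1 := det q φ ψ h h1 h2 _ _ p1
  rw [← he] at p2
  have e2 := det q φ ψ h h1 h2 _ _ p2
  have hs := hasSum_fst q φ ψ (φ ω)
  have hle := sum_le_hasSum {ψ ω, ψ ω'} (fun t _ => pr_nonneg q (fun ω => (φ ω, ψ ω)) (φ ω, t)) hs
  rw [Finset.sum_pair hne, e1, e2] at hle
  have := pr_self_pos q φ ω hω
  linarith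

lemma indep' (q : PMF Ω) (φ : Ω → S) (ψ : Ω → T) (a b : ℝ)
    (h1 : HasSum (fun s => negMulLog (pr q φ s)) a)
    (h2 : HasSum (fun s => negMulLog (pr q ψ s)) b)
    (h3 : HasSum (fun u => negMulLog (pr q (fun ω => (φ ω, ψ ω)) u)) (a + b)) :
    ∀ ω ∈ q.support, ∀ ω' ∈ q.support, ∃ ω'' ∈ q.support, φ ω'' = φ ω ∧ ψ ω'' = ψ ω' := by
  intro ω hω ω' hω'
  have h := indep q φ ψ a b h1 h2 h3 (φ ω) (ψ ω')
  have hp : 0 < pr q (fun ω => (φ ω, ψ ω)) (φ ω, ψ ω') := by
    rw [h]; exact mul_pos (pr_self_pos _ _ _ hω) (pr_self_pos _ _ _ hω')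
  obtain ⟨ω'', k1, k2⟩ := (pr_pos_iff _ _ _).1 hp
  exact ⟨ω'', k1, congrArg Prod.fst k2, congrArg Prod.snd k2⟩

lemma pr_line (q : PMF Ω) (x y z : Ω → ℕ) (h : ℝ)
    (hx : HasSum (fun s => negMulLog (pr q x s)) h)
    (hy : HasSum (fun s => negMulLog (pr q y s)) h)
    (hxy : HasSum (fun s => negMulLog (pr q (fun ω => (x ω, y ω)) s)) (h + h))
    (hxyz : HasSum (fun s => negMulLog (pr q (fun ω => ((x ω, y ω), z ω)) s)) (h + h)) :
    ∀ ω ∈ q.support, pr q (fun ω => ((x ω, y ω), z ω)) ((x ω, y ω), z ω) =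
      pr q x (x ω) * pr q y (y ω) := by
  intro ω hω
  have h1 := det q (fun ω => (x ω, y ω)) z (h + h) hxy hxyz (x ω, y ω) (z ω)
    (pr_self_pos q (fun ω => ((x ω, y ω), z ω)) ω hω)
  rw [h1, indep q x y h h hx hy hxy]

/-- On a line of three elements with the rank function of `U_{2,3}` the variables are uniform. -/
lemma uniform (q : PMF Ω) (x y z : Ω → ℕ) (v : ℕ) (hv : 2 ≤ v)
    (hx : HasSum (fun s => negMulLog (pr q x s)) (Real.log v))
    (hy : HasSum (fun s => negMulLog (pr q y s)) (Real.log v))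
    (hz : HasSum (fun s => negMulLog (pr q z s)) (Real.log v))
    (hxy : HasSum (fun s => negMulLog (pr q (fun ω => (x ω, y ω)) s)) (Real.log v + Real.log v))
    (hxz : HasSum (fun s => negMulLog (pr q (fun ω => (x ω, z ω)) s)) (Real.log v + Real.log v))
    (hyz : HasSum (fun s => negMulLog (pr q (fun ω => (y ω, z ω)) s)) (Real.log v + Real.log v))
    (h1 : HasSum (fun s => negMulLog (pr q (fun ω => ((x ω, y ω), z ω)) s))
      (Real.log v + Real.log v))
    (h2 : HasSum (fun s => negMulLog (pr q (fun ω => ((x ω, z ω), y ω)) s))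
      (Real.log v + Real.log v))
    (h3 : HasSum (fun s => negMulLog (pr q (fun ω => ((y ω, z ω), x ω)) s))
      (Real.log v + Real.log v)) :
    ∃ s : Finset ℕ, s.card = v ∧ ∀ n, n ∈ s ↔ ∃ ω ∈ q.support, z ω = n := by
  classical
  have k1 := pr_line q x y z _ hx hy hxy h1
  have k2 := pr_line q x z y _ hx hz hxz h2
  have k3 := pr_line q y z x _ hy hz hyz h3
  have e12 : ∀ ω, pr q (fun ω => ((x ω, z ω), y ω)) ((x ω, z ω), y ω) =
      pr q (fun ω => ((x ω, y ω), z ω)) ((x ω, y ω), z ω) := by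
    intro ω
    exact pr_inj q (fun ω => ((x ω, y ω), z ω))
      (fun u : (ℕ × ℕ) × ℕ => ((u.1.1, u.2), u.1.2))
      (by rintro ⟨⟨a, b⟩, c⟩ ⟨⟨a', b'⟩, c'⟩ h; simp only [Prod.mk.injEq] at h ⊢; tauto)
      ((x ω, y ω), z ω)
  have e13 : ∀ ω, pr q (fun ω => ((y ω, z ω), x ω)) ((y ω, z ω), x ω) =
      pr q (fun ω => ((x ω, y ω), z ω)) ((x ω, y ω), z ω) := by
    intro ω
    exact pr_inj q (fun ω => ((x ω, y ω), z ω))
      (fun u : (ℕ × ℕ) × ℕ => ((u.1.2, u.2), u.1.1))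
      (by rintro ⟨⟨a, b⟩, c⟩ ⟨⟨a', b'⟩, c'⟩ h; simp only [Prod.mk.injEq] at h ⊢; tauto)
      ((x ω, y ω), z ω)
  have hxz' : ∀ ω ∈ q.support, pr q x (x ω) = pr q z (z ω) := by
    intro ω hω
    have a1 := k1 ω hω
    have a2 := k2 ω hω
    have a3 := k3 ω hω
    rw [e12] at a2
    rw [e13] at a3
    have px := pr_self_pos q x ω hω
    have py := pr_self_pos q y ω hω
    have pz := pr_self_pos q z ω hω
    have b1 : pr q y (y ω) * (pr q x (x ω) - pr q z (z ω)) = 0 := by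
      rw [a1] at a3
      linarith [mul_comm (pr q x (x ω)) (pr q y (y ω))]
    rcases mul_eq_zero.1 b1 with h | h
    · exact absurd h py.ne'
    · linarith
  obtain ⟨ω0, hω0⟩ := q.support_nonempty
  set p := pr q z (z ω0) with hp
  have hp0 : 0 < p := pr_self_pos q z ω0 hω0
  have hconst : ∀ ω ∈ q.support, pr q z (z ω) = p := by
    intro ω hω
    obtain ⟨ω'', g1, g2, g3⟩ := indep' q x z _ _ hx hz hxz ω0 hω0 ω hω
    rw [← g3, ← hxz' _ g1, g2, hxz' _ hω0]
  have hval : ∀ n, pr q z n = if (∃ ω ∈ q.support, z ω = n) then p else 0 := by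
    intro n
    split_ifs with hn
    · obtain ⟨ω, hω, rfl⟩ := hn
      exact hconst ω hω
    · exact pr_zero q z n (fun ω hω h => hn ⟨ω, hω, h⟩)
  have hsum := hasSum_pr q z
  have hfin : Set.Finite {n | ∃ ω ∈ q.support, z ω = n} := by
    have ht := hsum.summable.tendsto_cofinite_zero
    have := ht.eventually (gt_mem_nhds hp0)
    rw [Filter.eventually_cofinite] at this
    apply this.subset
    intro n hn
    simp only [Set.mem_ofPred_eq] at hn ⊢
    rw [hval n, if_pos hn]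
    exact lt_irrefl _
  refine ⟨hfin.toFinset, ?_, fun n => by simp⟩
  have s1 : HasSum (pr q z) (∑ n ∈ hfin.toFinset, pr q z n) := by
    apply hasSum_sum_of_ne_finset_zero
    intro n hn
    rw [hval n, if_neg (by simpa using hn)]
  have s2 : HasSum (fun n => negMulLog (pr q z n)) (∑ n ∈ hfin.toFinset, negMulLog (pr q z n)) := by
    apply hasSum_sum_of_ne_finset_zero
    intro n hn
    rw [hval n, if_neg (by simpa using hn)]
    simp
  have c1 : ∑ n ∈ hfin.toFinset, pr q z n = hfin.toFinset.card * p := by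
    rw [Finset.sum_congr rfl (g := fun _ => p), Finset.sum_const, nsmul_eq_mul]
    intro n hn
    rw [hval n, if_pos (by simpa using hn)]
  have c2 : ∑ n ∈ hfin.toFinset, negMulLog (pr q z n) = hfin.toFinset.card * negMulLog p := by
    rw [Finset.sum_congr rfl (g := fun _ => negMulLog p), Finset.sum_const, nsmul_eq_mul]
    intro n hn
    rw [hval n, if_pos (by simpa using hn)]
  have d1 : (hfin.toFinset.card : ℝ) * p = 1 := by
    rw [← c1]; exact s1.unique hsum
  have d2 : (hfin.toFinset.card : ℝ) * negMulLog p = Real.log v := by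
    rw [← c2]; exact s2.unique hz
  have d3 : -Real.log p = Real.log v := by
    rw [← d2]
    unfold negMulLog
    have : (hfin.toFinset.card : ℝ) * (-p * Real.log p) =
      -((hfin.toFinset.card : ℝ) * p) * Real.log p := by ring
    rw [this, d1]; ring
  have d4 : (hfin.toFinset.card : ℝ) = p⁻¹ := eq_inv_of_mul_eq_one_left d1
  have hv0 : (0 : ℝ) < v := by exact_mod_cast (by omega : 0 < v)
  have d5 : p⁻¹ = v := by
    apply Real.log_injOn_pos (Set.mem_Ioi.2 (inv_pos.2 hp0)) (Set.mem_Ioi.2 hv0)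
    rw [Real.log_inv, d3]
  exact_mod_cast d4.trans d5

end Pool.Agent.H75MX.Ent
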