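import Pool.Agent.H75MX.Main

/-!
# `𝓜'` has an excluded minor different from `U_{2,5}`, `U_{3,5}`, `F_7`, `F_7^*`

The non-Fano matroid does not belong to `𝓜'`: it is not binary, and the alphabet of size `4` does not
belong to its p-characteristic set, which contains no even number. Hence some minor of it is an
excluded minor of `𝓜'`, and it has no minor isomorphic to one of the four matroids.
-/

namespace Pool.Agent.H75MX.FurtherExcludedMinor

open Pool.Agent.H75MX

/-- The p-characteristic set of the non-Fano matroid contains no even number, the non-Fano matroid is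
not in `𝓜'`, and it has a minor which is an excluded minor of `𝓜'` and which is not isomorphic to any
of `U_{2,5}`, `U_{3,5}`, `F_7`, `F_7^*`. -/
theorem result :
    (∀ v ∈ chi nonFano, ¬ Even v) ∧ ¬ InClass nonFano ∧
    ∃ (m : ℕ) (N : Mat m), ExcludedMinor N ∧ IsMinor N nonFano ∧
      ¬ Iso N (unif 2 5) ∧ ¬ Iso N (unif 3 5) ∧ ¬ Iso N fano ∧ ¬ Iso N (dual fano) :=
  main

end Pool.Agent.H75MX.FurtherExcludedMinor
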