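import Pool.Agent.H75MX.Odd

set_option autoImplicit false

/-!
# An excluded minor of `𝓜'` inside the non-Fano matroid
-/

namespace Pool.Agent.H75MX

open Comb

lemma fin_single_le {V : Type} [AddCommGroup V] [Module (ZMod 2) V] (a : V) :
    Module.finrank (ZMod 2) (Submodule.span (ZMod 2) {a}) ≤ 1 := by
  have := finrank_span_le_card (R := ZMod 2) ({a} : Set V)
  simpa using this

/-- Over the field with two elements the third point of a line is the sum of the other two. -/
lemma third {V : Type} [AddCommGroup V] [Module (ZMod 2) V] (a b c : V)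
    (hab : Module.finrank (ZMod 2) (Submodule.span (ZMod 2) {a, b}) = 2)
    (hac : Module.finrank (ZMod 2) (Submodule.span (ZMod 2) {a, c}) = 2)
    (hbc : Module.finrank (ZMod 2) (Submodule.span (ZMod 2) {b, c}) = 2)
    (habc : Module.finrank (ZMod 2) (Submodule.span (ZMod 2) {a, b, c}) = 2) : c = a + b := by
  have hle : Submodule.span (ZMod 2) {a, b} ≤ Submodule.span (ZMod 2) {a, b, c} := by
    apply Submodule.span_mono
    intro x hx
    simp only [Set.mem_insert_iff, Set.mem_singleton_iff] at hx ⊢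
    tauto
  have hfd : Module.Finite (ZMod 2) (Submodule.span (ZMod 2) ({a, b, c} : Set V)) := by
    apply Module.Finite.span_of_finite
    exact Set.toFinite _
  have heq := Submodule.eq_of_le_of_finrank_eq hle (hab.trans habc.symm)
  have hc : c ∈ Submodule.span (ZMod 2) {a, b} := by
    rw [heq]
    apply Submodule.subset_span
    simp
  obtain ⟨s, t, hst⟩ := Submodule.mem_span_pair.1 hc
  have h2 : ∀ u : ZMod 2, u = 0 ∨ u = 1 := by decide
  rcases h2 s with rfl | rfl <;> rcases h2 t with rfl | rfl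
  · -- c = 0
    simp only [zero_smul, add_zero] at hst
    rw [← hst] at hac
    have : Submodule.span (ZMod 2) {a, (0 : V)} = Submodule.span (ZMod 2) {a} := by
      rw [Set.pair_comm, Submodule.span_insert_zero]
    rw [this] at hac
    have := fin_single_le a
    omega
  · simp only [zero_smul, zero_add, one_smul] at hst
    rw [← hst] at hbc
    have := fin_single_le b
    rw [Set.pair_eq_singleton] at hbc
    omega
  · simp only [zero_smul, add_zero, one_smul] at hst
    rw [← hst] at hac
    have := fin_single_le a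
    rw [Set.pair_eq_singleton] at hac
    omega
  · simp only [one_smul] at hst
    exact hst.symm

theorem not_rep : ¬ RepOver (ZMod 2) nonFano := by
  rintro ⟨V, _, _, x, hx⟩
  have hp : ∀ i j : Fin 7, i ≠ j →
      Module.finrank (ZMod 2) (Submodule.span (ZMod 2) {x i, x j}) = 2 := by
    intro i j hij
    have h := hx {i, j}
    rw [r2 i j hij] at h
    have e : x '' ((({i, j} : Finset (Fin 7)) : Set (Fin 7))) = {x i, x j} := by
      simp [Set.image_pair]
    rw [e] at h
    exact h
  have ht : ∀ i j k : Fin 7, isLine i j k = true →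
      Module.finrank (ZMod 2) (Submodule.span (ZMod 2) {x i, x j, x k}) = 2 := by
    intro i j k hl
    have h := hx {i, j, k}
    rw [(r3' i j k hl).1] at h
    have e : x '' ((({i, j, k} : Finset (Fin 7)) : Set (Fin 7))) = {x i, x j, x k} := by
      simp [Set.image_insert_eq]
    rw [e] at h
    exact h
  have hth : ∀ i j k : Fin 7, isLine i j k = true → x k = x i + x j := by
    intro i j k hl
    obtain ⟨_, a, b, c⟩ := r3' i j k hl
    exact third _ _ _ (hp i j a) (hp i k b) (hp j k c) (ht i j k hl)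
  have e3 := hth 0 1 3 (by decide)
  have e4 := hth 1 2 4 (by decide)
  have e5 := hth 0 2 5 (by decide)
  have h2 : ∀ y : V, y + y = 0 := by
    intro y
    have : (2 : ZMod 2) • y = y + y := two_smul _ y
    rw [← this]
    have : (2 : ZMod 2) = 0 := by decide
    rw [this, zero_smul]
  have e6 : x 5 = x 3 + x 4 := by
    rw [e3, e4, e5]
    have : x 0 + x 1 + (x 1 + x 2) = x 0 + x 2 + (x 1 + x 1) := by abel
    rw [this, h2, add_zero]
  have h := hx {3, 4, 5}
  rw [r3 3 4 5 (by decide) (by decide) (by decide) (by decide)] at h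
  have e : x '' ((({3, 4, 5} : Finset (Fin 7)) : Set (Fin 7))) = {x 3, x 4, x 5} := by
    simp [Set.image_insert_eq]
  rw [e] at h
  have hsub : Submodule.span (ZMod 2) {x 3, x 4, x 5} ≤ Submodule.span (ZMod 2) {x 3, x 4} := by
    rw [Submodule.span_le]
    intro y hy
    simp only [Set.mem_insert_iff, Set.mem_singleton_iff] at hy
    have m3 : x 3 ∈ Submodule.span (ZMod 2) {x 3, x 4} := Submodule.subset_span (by simp)
    have m4 : x 4 ∈ Submodule.span (ZMod 2) {x 3, x 4} := Submodule.subset_span (by simp)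
    rcases hy with rfl | rfl | rfl
    · exact m3
    · exact m4
    · rw [e6]; exact Submodule.add_mem _ m3 m4
  have hfd : Module.Finite (ZMod 2) (Submodule.span (ZMod 2) ({x 3, x 4} : Set V)) := by
    apply Module.Finite.span_of_finite
    exact Set.toFinite _
  have := Submodule.finrank_mono hsub
  rw [h, hp 3 4 (by decide)] at this
  omega

theorem nonFano_not_inClass : ¬ InClass nonFano := by
  rintro (h | h)
  · exact not_rep (h (ZMod 2))
  · have h4 : (4 : ℕ) ∈ chi nonFano := by
      rw [h]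
      exact ⟨by norm_num, by norm_num⟩
    exact even_not_mem_chi 4 h4 (by decide)

theorem isMinor_refl {n : ℕ} (M : Mat n) : IsMinor M M :=
  ⟨∅, Function.Embedding.refl _, fun _ => by simp, fun A => by
    have : M.r ∅ = 0 := Nat.le_zero.1 (by simpa using M.r_le_card ∅)
    simp [this]⟩

theorem isMinor_trans {l m n : ℕ} {P : Mat l} {N : Mat m} {M : Mat n} (h1 : IsMinor P N)
    (h2 : IsMinor N M) : IsMinor P M := by
  obtain ⟨C', f', h1a, h1b⟩ := h1
  obtain ⟨C, f, h2a, h2b⟩ := h2
  refine ⟨C'.map f ∪ C, f'.trans f, ?_, ?_⟩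
  · intro i hi
    rcases Finset.mem_union.1 hi with h | h
    · obtain ⟨j, hj, hj'⟩ := Finset.mem_map.1 h
      have : j = f' i := f.injective hj'
      exact h1a i (this ▸ hj)
    · exact h2a _ h
  · intro A
    have e1 : A.map (f'.trans f) ∪ (C'.map f ∪ C) = (A.map f' ∪ C').map f ∪ C := by
      rw [← Finset.union_assoc, ← Finset.map_map, ← Finset.map_union]
    rw [e1, h2b, h2b, h1b]
    ring

theorem exists_excluded {n : ℕ} (M : Mat n) (hM : ¬ InClass M) :
    ∃ (m : ℕ) (N : Mat m), ExcludedMinor N ∧ IsMinor N M := by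
  classical
  have hex : ∃ m : ℕ, ∃ N : Mat m, ¬ InClass N ∧ IsMinor N M := ⟨n, M, hM, isMinor_refl M⟩
  obtain ⟨N, hN1, hN2⟩ := Nat.find_spec hex
  refine ⟨Nat.find hex, N, ⟨hN1, ?_⟩, hN2⟩
  intro m P hP hm
  by_contra hc
  exact Nat.find_min hex hm ⟨P, hc, isMinor_trans hP hN2⟩

/-! ### The four matroids are not minors of the non-Fano matroid -/

lemma isMinor_of_iso {l m n : ℕ} {T : Mat l} {N : Mat m} {M : Mat n} (h : Iso N T)
    (h2 : IsMinor N M) : IsMinor T M := by
  obtain ⟨f, hf⟩ := h
  obtain ⟨C, g, h2a, h2b⟩ := h2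
  refine ⟨C, f.symm.toEmbedding.trans g, fun i => h2a _, fun A => ?_⟩
  rw [← Finset.map_map, h2b]
  have := hf (A.map f.symm.toEmbedding)
  rw [Finset.map_map] at this
  have e : f.symm.toEmbedding.trans f.toEmbedding = Function.Embedding.refl _ := by
    ext x; simp
  rw [e, Finset.map_refl] at this
  rw [this]

lemma nf_le (A : Finset (Fin 7)) : nonFano.r A ≤ 3 :=
  (nonFano.r_mono A _ (Finset.subset_univ _)).trans r7.le

lemma not_minor_dual : ¬ IsMinor (dual fano) nonFano := by
  rintro ⟨C, f, h1, h2⟩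
  have h := h2 Finset.univ
  have h3 := nf_le (Finset.univ.map f ∪ C)
  have h4 : (dual fano).r Finset.univ = 4 := by
    have e1 : fano.r Finset.univ = 3 := rfl
    have e2 : fano.r ∅ = 0 := rfl
    show (Finset.univ : Finset (Fin 7)).card + fano.r Finset.univᶜ - fano.r Finset.univ = 4
    rw [Finset.compl_univ, e1, e2]
    rfl
  omega

set_option maxRecDepth 100000 in
lemma not_minor_fano : ¬ IsMinor fano nonFano := by
  rintro ⟨C, f, h1, h2⟩
  have hsurj : Function.Surjective f := Finite.surjective_of_injective f.injective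
  have hC : C = ∅ := by
    rw [Finset.eq_empty_iff_forall_notMem]
    intro c hc
    obtain ⟨i, rfl⟩ := hsurj c
    exact h1 i hc
  subst hC
  let L : Finset (Finset (Fin 7)) :=
    {{0, 1, 3}, {1, 2, 4}, {0, 2, 5}, {0, 4, 6}, {1, 5, 6}, {2, 3, 6}}
  let L' : Finset (Finset (Fin 7)) :=
    {{0, 1, 3}, {1, 2, 4}, {0, 2, 5}, {0, 4, 6}, {1, 5, 6}, {2, 3, 6}, {3, 4, 5}}
  have hmap : ∀ A ∈ L', A.map f ∈ L := by
    intro A hA
    have h := h2 A
    have e0 : nonFano.r ∅ = 0 := rfl
    rw [Finset.union_empty, e0, add_zero] at h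
    have e1 : fano.r A = 2 := if_pos hA
    have e2 : A.card = 3 := by
      have : ∀ A ∈ L', A.card = 3 := by decide
      exact this A hA
    by_contra hn
    have e3 : nonFano.r (A.map f) = min (A.map f).card 3 := if_neg hn
    rw [Finset.card_map, e2] at e3
    omega
  have hc := Finset.card_le_card_of_injOn (s := L') (t := L) (fun A => A.map f) hmap
    (fun A _ B _ h => Finset.map_injective f h)
  have c1 : L'.card = 7 := rfl
  have c2 : L.card = 6 := rfl
  omega

set_option maxRecDepth 100000 in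
lemma nf_lines : ∀ c d : Fin 7, (∃ i j k, isLine i j k = true ∧ i = c ∧ j ≠ d ∧ k ≠ d) := by
  decide

set_option maxRecDepth 100000 in
lemma nf_lines2 : ∀ c d : Fin 7, (∃ i j k, isLine i j k = true ∧
    i ≠ c ∧ j ≠ c ∧ k ≠ c ∧ i ≠ d ∧ j ≠ d ∧ k ≠ d) := by
  decide

lemma r_not_three (A : Finset (Fin 7)) (h : A.card ≠ 3) : nonFano.r A = min A.card 3 := by
  have hn : ∀ A ∈ ({{0, 1, 3}, {1, 2, 4}, {0, 2, 5}, {0, 4, 6}, {1, 5, 6}, {2, 3, 6}} :
      Finset (Finset (Fin 7))), A.card = 3 := by
    intro A hA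
    simp only [Finset.mem_insert, Finset.mem_singleton] at hA
    rcases hA with rfl | rfl | rfl | rfl | rfl | rfl <;> rfl
  exact if_neg (fun hA => h (hn A hA))

lemma not_minor_25 : ¬ IsMinor (unif 2 5) nonFano := by
  rintro ⟨C, f, h1, h2⟩
  have hdisj : Disjoint (Finset.univ.map f) C := by
    rw [Finset.disjoint_left]
    intro x hx hxC
    obtain ⟨i, _, rfl⟩ := Finset.mem_map.1 hx
    exact h1 i hxC
  have hcR : (Finset.univ.map f).card = 5 := by rw [Finset.card_map]; rfl
  have hcard := Finset.card_union_of_disjoint hdisj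
  have h := h2 Finset.univ
  have e1 : (unif 2 5).r Finset.univ = 2 := rfl
  have e2 := r_not_three (Finset.univ.map f ∪ C) (by omega)
  have hC1 : C.card = 1 := by
    by_cases h3 : C.card = 3
    · have : nonFano.r C ≤ 3 := nf_le C
      have := Finset.card_le_univ (Finset.univ.map f ∪ C)
      rw [Fintype.card_fin] at this
      omega
    · have e3 := r_not_three C h3
      omega
  obtain ⟨c, rfl⟩ := Finset.card_eq_one.1 hC1
  have hD : (Finset.univ \ (Finset.univ.map f ∪ {c})).card = 1 := by
    rw [Finset.card_sdiff_of_subset (Finset.subset_univ _), hcard, hcR]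
    rfl
  obtain ⟨d, hd⟩ := Finset.card_eq_one.1 hD
  have hmem : ∀ x, x ≠ c → x ≠ d → ∃ a, f a = x := by
    intro x hxc hxd
    by_contra hn
    have : x ∈ Finset.univ \ (Finset.univ.map f ∪ {c}) := by
      simp only [Finset.mem_sdiff, Finset.mem_univ, true_and, Finset.mem_union,
        Finset.mem_map, Finset.mem_singleton, not_or]
      exact ⟨hn, hxc⟩
    rw [hd, Finset.mem_singleton] at this
    exact hxd this
  obtain ⟨i, j, k, hl, rfl, hj, hk⟩ := nf_lines c d
  obtain ⟨q0, q1, q2, q3⟩ := r3' i j k hl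
  obtain ⟨a, rfl⟩ := hmem j q1.symm hj
  obtain ⟨b, rfl⟩ := hmem k q2.symm hk
  have hab : a ≠ b := fun h => q3 (by rw [h])
  have h3 := h2 {a, b}
  have e4 : (unif 2 5).r {a, b} = 2 := by
    show min ({a, b} : Finset (Fin 5)).card 2 = 2
    rw [Finset.card_pair hab]
    rfl
  have e5 : ({a, b} : Finset (Fin 5)).map f ∪ {i} = {i, f a, f b} := by
    ext x
    simp only [Finset.map_insert, Finset.map_singleton, Finset.mem_union, Finset.mem_insert,
      Finset.mem_singleton]
    exact or_comm
  rw [e5, q0, e4, r1] at h3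
  exact absurd h3 (by decide)

lemma not_minor_35 : ¬ IsMinor (unif 3 5) nonFano := by
  rintro ⟨C, f, h1, h2⟩
  have hcR : (Finset.univ.map f).card = 5 := by rw [Finset.card_map]; rfl
  have h := h2 Finset.univ
  have e1 : (unif 3 5).r Finset.univ = 3 := rfl
  have e2 := nf_le (Finset.univ.map f ∪ C)
  have hC : C = ∅ := by
    by_contra hn
    obtain ⟨c, hc⟩ := Finset.nonempty_iff_ne_empty.2 hn
    have := nonFano.r_mono {c} C (by simpa using hc)
    rw [r1] at this
    omega
  subst hC
  have e0 : nonFano.r ∅ = 0 := rfl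
  have hD : (Finset.univ \ Finset.univ.map f).card = 2 := by
    rw [Finset.card_sdiff_of_subset (Finset.subset_univ _), hcR]
    rfl
  obtain ⟨c, d, _, hd⟩ := Finset.card_eq_two.1 hD
  have hmem : ∀ x, x ≠ c → x ≠ d → ∃ a, f a = x := by
    intro x hxc hxd
    by_contra hn
    have : x ∈ Finset.univ \ Finset.univ.map f := by
      simp only [Finset.mem_sdiff, Finset.mem_univ, true_and, Finset.mem_map]
      exact hn
    rw [hd, Finset.mem_insert, Finset.mem_singleton] at this
    tauto
  obtain ⟨i, j, k, hl, p1, p2, p3, p4, p5, p6⟩ := nf_lines2 c d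
  obtain ⟨q0, q1, q2, q3⟩ := r3' i j k hl
  obtain ⟨a, rfl⟩ := hmem i p1 p4
  obtain ⟨b, rfl⟩ := hmem j p2 p5
  obtain ⟨e, rfl⟩ := hmem k p3 p6
  have hab : a ≠ b := fun h => q1 (by rw [h])
  have hae : a ≠ e := fun h => q2 (by rw [h])
  have hbe : b ≠ e := fun h => q3 (by rw [h])
  have h3 := h2 {a, b, e}
  have e4 : (unif 3 5).r {a, b, e} = 3 := by
    show min ({a, b, e} : Finset (Fin 5)).card 3 = 3
    rw [Finset.card_eq_three.2 ⟨a, b, e, hab, hae, hbe, rfl⟩]
    rfl
  have e5 : ({a, b, e} : Finset (Fin 5)).map f ∪ ∅ = {f a, f b, f e} := by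
    ext x
    simp only [Finset.map_insert, Finset.map_singleton, Finset.mem_union, Finset.mem_insert,
      Finset.mem_singleton, Finset.notMem_empty, or_false]
  rw [e5, q0, e4, e0] at h3
  exact absurd h3 (by decide)

theorem main :
    (∀ v ∈ chi nonFano, ¬ Even v) ∧ ¬ InClass nonFano ∧
    ∃ (m : ℕ) (N : Mat m), ExcludedMinor N ∧ IsMinor N nonFano ∧
      ¬ Iso N (unif 2 5) ∧ ¬ Iso N (unif 3 5) ∧ ¬ Iso N fano ∧ ¬ Iso N (dual fano) := by
  obtain ⟨m, N, h1, h2⟩ := exists_excluded nonFano nonFano_not_inClass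
  exact ⟨fun v hv => even_not_mem_chi v hv, nonFano_not_inClass, m, N, h1, h2,
    fun h => not_minor_25 (isMinor_of_iso h h2), fun h => not_minor_35 (isMinor_of_iso h h2),
    fun h => not_minor_fano (isMinor_of_iso h h2), fun h => not_minor_dual (isMinor_of_iso h h2)⟩

end Pool.Agent.H75MX
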