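import Pool.Agent.H75MX.Ent2
import Pool.Agent.H75MX.Defs

set_option autoImplicit false

/-!
# The p-characteristic set of the non-Fano matroid contains no even number
-/

namespace Pool.Agent.H75MX

open Ent Comb

set_option maxRecDepth 100000 in
lemma r1 : ∀ i : Fin 7, nonFano.r {i} = 1 := by decide

set_option maxRecDepth 100000 in
lemma r2 : ∀ i j : Fin 7, i ≠ j → nonFano.r {i, j} = 2 := by decide

set_option maxRecDepth 100000 in
lemma r3 : ∀ i j k : Fin 7, i ≠ j → i ≠ k → j ≠ k → isLine i j k = false →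
    nonFano.r {i, j, k} = 3 := by decide

set_option maxRecDepth 100000 in
lemma r3' : ∀ i j k : Fin 7, isLine i j k = true →
    nonFano.r {i, j, k} = 2 ∧ i ≠ j ∧ i ≠ k ∧ j ≠ k := by decide

set_option maxRecDepth 100000 in
lemma r7 : nonFano.r Finset.univ = 3 := by decide

theorem even_not_mem_chi (v : ℕ) (hv : v ∈ chi nonFano) : ¬ Even v := by
  intro hev
  obtain ⟨hv2, q, hq⟩ := hv
  have base : ∀ (A : Finset (Fin 7)), HasSum (fun t => Real.negMulLog
      (pr q (fun ω (i : A) => ω i) t)) (Real.log v * nonFano.r A) := hq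
  have h1 : ∀ i, HasSum (fun t => Real.negMulLog (pr q (fun ω => ω i) t)) (Real.log v) := by
    intro i
    have h := ent_inj q (fun ω (j : ({i} : Finset (Fin 7))) => ω j)
      (fun x => x ⟨i, by simp⟩) (by
        intro x y hxy
        funext ⟨j, hj⟩
        have hj' := Finset.mem_singleton.1 hj
        subst hj'
        exact hxy) _ (base {i})
    rw [r1] at h
    simpa using h
  have h2 : ∀ i j, i ≠ j → HasSum (fun t => Real.negMulLog (pr q (fun ω => (ω i, ω j)) t))
      (Real.log v + Real.log v) := by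
    intro i j hij
    have h := ent_inj q (fun ω (l : ({i, j} : Finset (Fin 7))) => ω l)
      (fun x => (x ⟨i, by simp⟩, x ⟨j, by simp⟩)) (by
        intro x y hxy
        simp only [Prod.mk.injEq] at hxy
        funext ⟨l, hl⟩
        have hl' := hl
        simp only [Finset.mem_insert, Finset.mem_singleton] at hl'
        rcases hl' with rfl | rfl
        · exact hxy.1
        · exact hxy.2) _ (base {i, j})
    rw [r2 i j hij] at h
    have e : Real.log v * ((2 : ℕ) : ℝ) = Real.log v + Real.log v := by push_cast; ring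
    rw [e] at h
    exact h
  have h3 : ∀ i j k, HasSum (fun t => Real.negMulLog (pr q (fun ω => ((ω i, ω j), ω k)) t))
      (Real.log v * nonFano.r {i, j, k}) := by
    intro i j k
    exact ent_inj q (fun ω (l : ({i, j, k} : Finset (Fin 7))) => ω l)
      (fun x => ((x ⟨i, by simp⟩, x ⟨j, by simp⟩), x ⟨k, by simp⟩)) (by
        intro x y hxy
        simp only [Prod.mk.injEq] at hxy
        funext ⟨l, hl⟩
        have hl' := hl
        simp only [Finset.mem_insert, Finset.mem_singleton] at hl'
        rcases hl' with rfl | rfl | rfl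
        · exact hxy.1.1
        · exact hxy.1.2
        · exact hxy.2) _ (base {i, j, k})
  have h7 : ∀ i j k, HasSum (fun t => Real.negMulLog
      (pr q (fun ω => (((ω i, ω j), ω k), ω)) t)) (Real.log v * (3 : ℕ)) := by
    intro i j k
    have h := ent_inj q (fun ω (l : (Finset.univ : Finset (Fin 7))) => ω l)
      (fun x => (((x ⟨i, by simp⟩, x ⟨j, by simp⟩), x ⟨k, by simp⟩), fun l => x ⟨l, by simp⟩)) (by
        intro x y hxy
        simp only [Prod.mk.injEq] at hxy
        funext ⟨l, hl⟩
        exact congrFun hxy.2 l) _ (base Finset.univ)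
    rw [r7] at h
    exact h
  have ht : ∀ i j k, isLine i j k = true → HasSum (fun t => Real.negMulLog
      (pr q (fun ω => ((ω i, ω j), ω k)) t)) (Real.log v + Real.log v) := by
    intro i j k hl
    have h := h3 i j k
    rw [(r3' i j k hl).1] at h
    have e : Real.log v * ((2 : ℕ) : ℝ) = Real.log v + Real.log v := by push_cast; ring
    rw [e] at h
    exact h
  have htn : ∀ i j k, i ≠ j → i ≠ k → j ≠ k → isLine i j k = false → HasSum (fun t =>
      Real.negMulLog (pr q (fun ω => ((ω i, ω j), ω k)) t))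
      (Real.log v + Real.log v + Real.log v) := by
    intro i j k a b c hl
    have h := h3 i j k
    rw [r3 i j k a b c hl] at h
    have e : Real.log v * ((3 : ℕ) : ℝ) = Real.log v + Real.log v + Real.log v := by
      push_cast; ring
    rw [e] at h
    exact h
  obtain ⟨s, hs1, hs2⟩ := uniform q (fun ω => ω 0) (fun ω => ω 4) (fun ω => ω 6) v hv2 (h1 0) (h1 4)
    (h1 6) (h2 0 4 (by decide)) (h2 0 6 (by decide)) (h2 4 6 (by decide)) (ht 0 4 6 (by decide))
    (ht 0 6 4 (by decide)) (ht 4 6 0 (by decide))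
  obtain ⟨o, ho⟩ := q.support_nonempty
  refine core q.support o ho ?_ ?_ ?_ s hs2 (hs1 ▸ hev)
  · intro i j k hij hik hjk hl a ha b hb c hc
    obtain ⟨ω1, k1, k2, k3⟩ := indep' q (fun ω => ω i) (fun ω => ω j) _ _ (h1 i) (h1 j)
      (h2 i j hij) a ha b hb
    obtain ⟨ω2, g1, g2, g3⟩ := indep' q (fun ω => (ω i, ω j)) (fun ω => ω k) _ _ (h2 i j hij) (h1 k)
      (htn i j k hij hik hjk hl) ω1 k1 c hc
    have g4 := congrArg Prod.fst g2
    have g5 := congrArg Prod.snd g2
    exact ⟨ω2, g1, g4.trans k2, g5.trans k3, g3⟩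
  · intro i j k hij hik hjk hl a ha b hb e1 e2 e3
    have h := htn i j k hij hik hjk hl
    have e : Real.log v * ((3 : ℕ) : ℝ) = Real.log v + Real.log v + Real.log v := by
      push_cast; ring
    have h' := h7 i j k
    rw [e] at h'
    exact det' q (fun ω => ((ω i, ω j), ω k)) (fun ω => ω) _ h h' a ha b hb
      (by simp only [e1, e2, e3])
  · intro i j k hl a ha b hb e1 e2
    exact det' q (fun ω => (ω i, ω j)) (fun ω => ω k) _ (h2 i j (r3' i j k hl).2.1)
      (ht i j k hl) a ha b hb (by simp only [e1, e2])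

end Pool.Agent.H75MX
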